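import Pool.Agent.NBT.StmtsA
import Pool.Agent.Helper23_NTW.PAC

/-!
# NBT, row IBI: rescaling of the vertices and the action of the group
-/

set_option autoImplicit false

open Matrix Filter Topology

namespace Pool.Agent.NBT.H64

open Pool.Agent.PFS Pool.Agent.PFJ Pool.Agent.NBT
open Pool.Agent.NTW.H23 (face_act img_span span_face_smul)

theorem exists_eps {K : ℕ} (r : Fin K → ℝ) (hr : ∀ i, 0 < r i) :
    ∃ ε : ℝ, 0 < ε ∧ ∀ i, ε ≤ r i ∧ ε * r i ≤ 1 := by
  obtain ⟨A, hA⟩ : ∃ A : ℝ, A = 1 + ∑ i, (r i + 1 / r i) := ⟨_, rfl⟩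
  have h0 : ∀ i, 0 ≤ r i + 1 / r i := fun i =>
    add_nonneg (hr i).le (one_div_pos.2 (hr i)).le
  have hsum : 0 ≤ ∑ i, (r i + 1 / r i) := Finset.sum_nonneg fun i _ => h0 i
  have hA0 : 0 < A := by rw [hA]; linarith
  have hi : ∀ i, r i + 1 / r i ≤ A := fun i => by
    have h1 := Finset.single_le_sum (f := fun i => r i + 1 / r i) (fun i _ => h0 i)
      (Finset.mem_univ i)
    rw [hA]
    have h2 : r i + 1 / r i ≤ ∑ i, (r i + 1 / r i) := h1
    linarith
  refine ⟨1 / A, one_div_pos.2 hA0, fun i => ⟨?_, ?_⟩⟩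
  · have h1 : 1 / r i ≤ A := by
      have := hi i
      have h2 := hr i
      linarith
    rw [one_div_le hA0 (hr i)]
    exact h1
  · have h1 : r i ≤ A := by
      have := hi i
      have h2 := one_div_pos.2 (hr i)
      linarith
    rw [one_div, inv_mul_le_iff₀ hA0, mul_one]
    exact h1

theorem fS_act {n K : ℕ} (g : GL (Fin n) ℝ) (s : ℝ) (w : Fin K → V n) (I : Finset (Fin K)) :
    fS (fun m => s • act g (w m)) I = s • act g (fS w I) := by
  unfold fS
  rw [CC.act_sum, Finset.smul_sum]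

/-- **IBI** -/
theorem ibi : IbiStmt := by
  intro n C Γ hCC K w hw
  have hP : PCone C := hCC.toPCone
  have himg := Pool.Agent.PFJ.H32.img n
  refine ⟨?_, ?_, ?_⟩
  · intro r hr I
    obtain ⟨ε, hε, h⟩ := exists_eps r hr
    have hx : fS w I ∈ closure C := fS_cl hP hw I
    obtain ⟨-, -, h3, -, h5⟩ := fcs n C hP (fS w I) hx
    unfold BI
    refine h5 _ ((h3 _).1 ⟨ε, hε, ?_, ?_⟩)
    · have e : fS w I - ε • fS (fun i => r i • w i) I = ∑ i ∈ I, (1 - ε * r i) • w i := by
        unfold fS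
        rw [Finset.smul_sum, ← Finset.sum_sub_distrib]
        refine Finset.sum_congr rfl fun i _ => ?_
        rw [smul_smul, sub_smul, one_smul]
      rw [e]
      exact hP.cl_sum fun i _ => hP.cl_smul (hw i) (sub_nonneg.2 (h i).2)
    · have e : fS (fun i => r i • w i) I - ε • fS w I = ∑ i ∈ I, (r i - ε) • w i := by
        unfold fS
        rw [Finset.smul_sum, ← Finset.sum_sub_distrib]
        refine Finset.sum_congr rfl fun i _ => ?_
        rw [sub_smul]
      rw [e]
      exact hP.cl_sum fun i _ => hP.cl_smul (hw i) (sub_nonneg.2 (h i).1)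
  · intro g hg s hs I
    unfold BI
    have h1 : fS (fun i => s • act g (w i)) I = act g (s • fS w I) := by
      rw [fS_act, CC.act_smul]
    rw [h1, face_act hCC hg, ← img_span, span_face_smul hP hs]
  · intro g hg s hs I L hL
    refine ⟨fun i hi => ?_, fun v hv hvc => ?_⟩
    · exact (img g L).smul_mem s ((himg.2.1 g L _).mpr (hL.mem i hi))
    · obtain ⟨v', hv', rfl⟩ := mem_img.mp hv
      rw [fS_act] at hvc
      have h1 : act g v' + s • act g (fS w Iᶜ) = s • act g (s⁻¹ • v' + fS w Iᶜ) := by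
        rw [CC.act_add, CC.act_smul, smul_add, smul_smul, mul_inv_cancel₀ hs.ne', one_smul]
      rw [h1, hCC.sact_cl_iff hg hs] at hvc
      have h2 := hL.box _ (L.smul_mem s⁻¹ hv') hvc
      exact hCC.act_cl hg ((hP.cl_smul_iff (inv_pos.mpr hs)).mp h2)

end Pool.Agent.NBT.H64
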